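import Pool.Agent.H564R2.QF.Game

/-!
# Formulas with counted witness bits
-/

namespace Pool.Agent.Y607.CW

open Pool.Agent.H564R2.QF

/-- The number of witnesses: the number of values of the `k` witness bits (the right variables)
for which the formula is true on the input `z`. -/
def cnt {V : Type} {k : ℕ} (φ : Fml (V ⊕ Fin k)) (z : V → Bool) : ℕ :=
  (Finset.univ.filter fun u : Fin k → Bool => φ.eval (Sum.elim z u) = true).card

/-- On the inputs with the property `D`, the formula `φ` with `k` witness bits decides the
property `Q`: an input has the property `Q` iff its number of witnesses has the property `R`. -/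
def ByCount {V : Type} {k : ℕ} (D Q : (V → Bool) → Prop) (R : ℕ → Prop)
    (φ : Fml (V ⊕ Fin k)) : Prop :=
  ∀ z, D z → (R (cnt φ z) ↔ Q z)

/-- On the inputs with the property `D`, the formula `φ` with `k` random bits decides the property
`Q` with advantage `ε`: it is true with probability at least `1 / 2 + ε` if the input has the
property `Q`, and with probability at most `1 / 2 - ε` otherwise. -/
def ByChance {V : Type} {k : ℕ} (D Q : (V → Bool) → Prop) (ε : ℝ) (φ : Fml (V ⊕ Fin k)) : Prop :=
  ∀ z, D z → (Q z → (1 / 2 + ε) * 2 ^ k ≤ (cnt φ z : ℝ)) ∧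
    (¬ Q z → (cnt φ z : ℝ) ≤ (1 / 2 - ε) * 2 ^ k)

/-- The names which occur in the 3-CNF with `M` clauses coded by `z`. The names of variables are
words of `w` bits; `z (i, j, some b)` is bit `b` of the name of the variable of the literal number
`j` in clause `i`, and `z (i, j, none)` is the value of the variable which makes the literal
true. -/
def Names (M w : ℕ) (z : Fin M × Fin 3 × Option (Fin w) → Bool) : Type :=
  {a : Fin w → Bool // ∃ i j, a = fun b => z (i, j, some b)}

/-- the variable of a literal -/
def nameOf {M w : ℕ} (z : Fin M × Fin 3 × Option (Fin w) → Bool) (i : Fin M) (j : Fin 3) :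
    Names M w z := ⟨fun b => z (i, j, some b), i, j, rfl⟩

/-- The number of satisfying assignments (to the variables which occur) of the 3-CNF with `M`
clauses coded by `z`. -/
noncomputable def numSat (M w : ℕ) (z : Fin M × Fin 3 × Option (Fin w) → Bool) : ℕ :=
  Nat.card {α : Names M w z → Bool // ∀ i, ∃ j, α (nameOf z i j) = z (i, j, none)}

/-- The lower bounds `a` and `b` for the size of the formula `φ` with `k` witness bits, for the
property `Q` of the inputs with the property `D`, in the modes of acceptance: at least `θ`
witnesses; at least one witness; a condition on the number of witnesses modulo an odd prime; random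
witness bits with advantage `1 / 2 ^ s`. -/
def Bounds {V : Type} {k : ℕ} (D Q : (V → Bool) → Prop) (φ : Fml (V ⊕ Fin k))
    (a b C L : ℕ) : Prop :=
  (∀ θ : ℕ, ByCount D Q (fun c => θ ≤ c) φ →
    a ≤ C * (k + 1) * φ.size ∧ b ≤ C * L * 16 ^ k * φ.size) ∧
  (ByCount D Q (fun c => 0 < c) φ → b ≤ C * L * 2 ^ k * φ.size) ∧
  (∀ (q : ℕ) (A : Set (ZMod q)), q.Prime → q ≠ 2 → ByCount D Q (fun c => (c : ZMod q) ∈ A) φ →
    a ≤ C * q ^ 2 * (k + 1) * φ.size) ∧
  (∀ s : ℕ, ByChance D Q ((1 / 2) ^ s) φ →
    a ≤ C * (s + 1) * φ.size ∧ b ≤ C * L * 16 ^ s * φ.size)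

end Pool.Agent.Y607.CW
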